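import Pool.Agent.W_68f289_h35m.Fc
import Pool.Agent.W_68f289_h35m.St2

/-!
The Calabi alternative for Hamiltonian homeomorphisms and hameomorphisms of the ball.
-/

open Pool.Agent.W_MP_68f289_gt Pool.Agent.W_68f289_h35

namespace Pool.Agent.Results.MP_68f289_gt.CalabiAlternative

/-- Let `n ≥ 1`. Topological Hamiltonian paths (`TPath`) are the limits, for the Hofer norm of the
Hamiltonians and for uniform convergence of the flows, of smooth Hamiltonian isotopies with support in
a compact subset of the open unit ball of `ℝ^{2n}`; their end points form the group `Hameo n`, and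
`HamBar n` is the group of Hamiltonian homeomorphisms of the ball. Exactly one of the following
holds. (A) There is a homomorphism `C : Hameo n → ℝ` such that the Calabi invariants `cal (H k)`
converge to the value of `C` at the end point, for every topological Hamiltonian path; `C` extends to a
homomorphism `HamBar n → ℝ`; the nontrivial subgroups of `Hameo n` which are closed (`HClosed`) and
normalised by the commutator subgroup are exactly the preimages under `C` of the closed subgroups of
`ℝ`; `Hameo n` is a proper subgroup of `HamBar n`; and neither `Hameo n` nor `HamBar n` is simple.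
(B) Every real number is the Calabi invariant of a topological Hamiltonian loop, and the only
nontrivial closed subgroup of `Hameo n` which is normalised by the commutator subgroup is
`Hameo n`. -/
theorem result (n : ℕ) (hn : 1 ≤ n) :
    Xor'
      (∃ C : Hm n → ℝ, IsChar C ∧ (∀ u H, EndsAt u H → CalLim H (C u)) ∧
        (∃ D : G n → ℝ, IsChar D ∧ Extends D C) ∧
        (∀ N : Subgroup (Hm n), N ≠ ⊥ → (NormC N ∧ HClosed N ↔
          ∃ Λ : AddSubgroup ℝ, IsClosed (Λ : Set ℝ) ∧ ∀ u, u ∈ N ↔ C u ∈ Λ)) ∧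
        Hameo n ≠ HamBar n ∧ ¬ IsSimpleGroup (Hm n) ∧ ¬ IsSimpleGroup (G n))
      ((∀ c : ℝ, ∃ H, EndsAt (1 : Hm n) H ∧ CalLim H c) ∧
        ∀ N : Subgroup (Hm n), N ≠ ⊥ → NormC N → HClosed N → N = ⊤) := by
  have hex : ∀ P Q : Prop, (P ∨ Q) → ¬ (P ∧ Q) → Xor' P Q := by
    intro P Q h1 h2
    rcases h1 with h | h
    · exact Or.inl ⟨h, fun h' => h2 ⟨h, h'⟩⟩
    · exact Or.inr ⟨h, fun h' => h2 ⟨h', h⟩⟩
  apply hex
  · rcases alternative_final (n := n) hn with ⟨⟨C, h1, ⟨D, h2⟩, h3, h4, h5, h6⟩, -⟩ | ⟨⟨h1, h2⟩, -⟩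
    · refine Or.inl ⟨fun u => (C u).toAdd, fun u v => ?_, ?_, ⟨fun u => (D u).toAdd,
        fun u v => ?_, fun u v huv => ?_⟩, fun N hN => h3 N hN, h4, h5, h6⟩
      · change (C (u * v)).toAdd = _
        rw [map_mul]
        rfl
      · rintro u H ⟨K, ψ, Φ, h, he⟩
        exact h1 K H ψ Φ h u he.symm
      · change (D (u * v)).toAdd = _
        rw [map_mul]
        rfl
      · change (D v).toAdd = (C u).toAdd
        rw [h2 u v huv]
    · refine Or.inr ⟨fun c => ?_, h2⟩
      obtain ⟨K, H, ψ, Φ, h, h3, h4⟩ := h1 c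
      exact ⟨H, ⟨K, ψ, Φ, h, h3⟩, h4⟩
  · rintro ⟨⟨C, h1, h2, -⟩, h3, -⟩
    obtain ⟨H, h4, h5⟩ := h3 1
    have h6 := tendsto_nhds_unique (h2 1 H h4) h5
    have h7 := h1 1 1
    rw [mul_one, h6] at h7
    norm_num at h7

end Pool.Agent.Results.MP_68f289_gt.CalabiAlternative
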