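import Pool.Agent.W_68f289_h35c.Gc5

/-!
Normal subgroups of the group of Hamiltonian homeomorphisms of the ball: the hameomorphisms, the
commutator subgroup, the fragmentable elements and the normal closures of countable sets are the
whole group if and only if they have index less than the continuum, if and only if they are not meagre
near radius one, if and only if they satisfy an estimate near the identity.
-/

open Pool.Agent.W_MP_68f289_gt Pool.Agent.W_68f289_h51 Pool.Agent.W_68f289_h51n

namespace Pool.Agent.Results.MP_68f289_gt.EnergyCriterion

/-- `HamBar n` is the group of compactly supported Hamiltonian homeomorphisms of the open unit ball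
of `ℝ^{2n}`, `G n` is this group as a type, and `Hameo n` is its subgroup of hameomorphisms.
`XR n R` is the space of limits of Hamiltonian diffeomorphisms of the closed ball of radius `R` (with
the compact-open topology), and `NX N R` is the set of its elements which lie in `N`.

* Let `N` be `Hameo n`, or the commutator subgroup, or the subgroup `FrL` of the fragmentable elements,
  or the normal closure of a countable set. Then `N` is the whole group if and only if its index is
  less than the continuum, and if and only if it is not meagre in `XR n R` for all `R < 1` close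
  to `1`.
* `Hameo n = HamBar n` if and only if the energy estimate `EnergyEst n` holds. The group is perfect, or
  it is the normal closure of the countable set `T`, or all its elements are fragmentable, if and only
  if the commutators, or the conjugates of the elements of `T` and of their inverses, or, for
  every `δ > 0`, the elements supported in balls of radius `δ`, generate boundedly near the identity
  (`BddGen`).
* Let `n ≥ 1`. If the group is simple, then `Hameo n = HamBar n`. The group is simple if and only if
  the normal closure of some finite set has index less than the continuum, if and only if the normal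
  closure of some commutator `h ≠ 1` of two Hamiltonian diffeomorphisms has, and if and only if
  for every `h ≠ 1` the conjugates of `h` and `h⁻¹` generate boundedly near the identity. -/
theorem result (n : ℕ) :
    (∀ N : Subgroup (G n), (N = (Hameo n).subgroupOf (HamBar n) ∨ N = commutator (G n) ∨
        N = FrL (HamBar n) ∨ ∃ T : Set (G n), T.Countable ∧ N = Subgroup.normalClosure T) →
      [N = ⊤, Cardinal.mk (G n ⧸ N) < Cardinal.continuum,
        ¬ ∃ R₀ : ℝ, R₀ < 1 ∧ ∀ R : ℝ, R₀ < R → R < 1 → IsMeagre (NX N R)].TFAE) ∧
    (Hameo n = HamBar n ↔ EnergyEst n) ∧
    (commutator (G n) = ⊤ ↔ BddGen n (Com n)) ∧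
    (∀ T : Set (G n), T.Countable → (Subgroup.normalClosure T = ⊤ ↔ BddGen n (Conj T))) ∧
    (FrL (HamBar n) = ⊤ ↔ ∀ δ : ℝ, 0 < δ → BddGen n (Sup n δ)) ∧
    (1 ≤ n → IsSimpleGroup (G n) → Hameo n = HamBar n) ∧
    (1 ≤ n → [IsSimpleGroup (G n),
      ∃ T : Set (G n), T.Finite ∧
        Cardinal.mk (G n ⧸ Subgroup.normalClosure T) < Cardinal.continuum,
      ∃ h : G n, h ≠ 1 ∧ (∃ a b : G n, IsHam n (a : E n ≃ₜ E n) ∧ IsHam n (b : E n ≃ₜ E n) ∧
        h = a * b * a⁻¹ * b⁻¹) ∧
        Cardinal.mk (G n ⧸ Subgroup.normalClosure {h}) < Cardinal.continuum,
      ∀ h : G n, h ≠ 1 → BddGen n (Conj {h})].TFAE) :=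
  ⟨fun _ hN => subgroup_tfae_lt hN, (energy_criterion n).2.1, com_iff n, fun _ hT => conj_iff hT,
    fr_iff n, (energy_criterion n).2.2, fun hn => simple_tfae_lt hn⟩

end Pool.Agent.Results.MP_68f289_gt.EnergyCriterion
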