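import Pool.Agent.W_MP_68f289_gt.Extra

/-!
The smallest nontrivial normal subgroup of the groups of Hamiltonian homeomorphisms and of
hameomorphisms of the ball, and a criterion for their simplicity.
-/

open Pool.Agent.W_MP_68f289_gt

namespace Pool.Agent.Results.MP_68f289_gt.Monolith

/-- `HamBar n` is the group of compactly supported Hamiltonian homeomorphisms of the open unit ball
of `ℝ^{2n}`, `Hameo n` the group generated by the Oh-Müller hameomorphisms of the ball. Both are
`Big`: they contain all compactly supported Hamiltonian diffeomorphisms of the ball, and consist of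
homeomorphisms supported in compact subsets of the ball. Let `L` be any such group, and let
`F = FrL L` be the subgroup of all elements which, for every `ε > 0`, are products of elements
of `L` supported in balls of radius `ε`. Then `F` contains all Hamiltonian diffeomorphisms,
`M = ⁅F, L⁆` is a simple normal subgroup of `L`, it is contained in every nontrivial subgroup of
`L` which it normalises, and `L` is simple if and only if `L` is perfect and `F = L`. -/
theorem result (n : ℕ) (hn : 1 ≤ n) :
    Big (HamBar n) ∧ Big (Hameo n) ∧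
    ∀ L : Subgroup (E n ≃ₜ E n), Big L →
      ∃ M : Subgroup (Ty L), M = ⁅FrL L, (⊤ : Subgroup (Ty L))⁆ ∧ M.Normal ∧
        IsSimpleGroup M ∧
        (∀ u : Ty L, IsHam n (u : E n ≃ₜ E n) → u ∈ FrL L) ∧
        (∀ N : Subgroup (Ty L), N ≠ ⊥ → (∀ m ∈ M, ∀ g ∈ N, m * g * m⁻¹ ∈ N) → M ≤ N) ∧
        (IsSimpleGroup (Ty L) ↔ commutator (Ty L) = ⊤ ∧ FrL L = ⊤) := by
  refine ⟨big_HamBar, big_Hameo, fun L hL => ?_⟩
  have S := sysL hn hL
  exact ⟨Mo L (Bl n), S.Mo_eq, S.Mo_normal, S.Mo_simple,
    fun u hu => Fc_le_Fr (Bl n) (isHam_memL hL hu), fun N hN hn => S.Mo_le hN hn,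
    S.simple_iff_perfect_and_frag⟩

end Pool.Agent.Results.MP_68f289_gt.Monolith
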